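import Pool.Agent.H610DN.Two

/-!
# Factorizations of `h` in blocks of at most two generators
-/

namespace Pool.Agent.H610DN

open Q122.DetNS

variable {n : ℕ} {a : Fin n → ℕ} {h α : ℤ}

theorem unique_of_pairs (hn : 3 ≤ n) (ha : IsMinGen a) (hAP : IsAP a h α) (σ : Fin n → Fin n)
    (hσ : ∀ i, σ (σ i) = i)
    (hb : ∀ v w : Fin n → ℕ, h = ∑ i, (v i : ℤ) * a i → h = ∑ i, (w i : ℤ) * a i →
      ∀ i, (v i : ℤ) * a i + (v (σ i) : ℤ) * a (σ i) =
        (w i : ℤ) * a i + (w (σ i) : ℤ) * a (σ i)) :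
    ∃! v : Fin n → ℕ, h = ∑ i, (v i : ℤ) * a i := by
  classical
  obtain ⟨hg, hmin⟩ := ha
  have hpos : ∀ i, (0 : ℤ) < a i := fun i => by exact_mod_cast (hmin i).1
  have hα : 0 < α := hAP.1
  have hα0 : ¬ InH a α := hAP.alpha_not hn
  have hh : InH a h := by
    have := hAP.dual hg InH.zero (by simpa using hα0)
    simpa using this
  obtain ⟨v0, hv0⟩ := hh
  by_contra hcon
  have hex : ∃ w0 : Fin n → ℕ, h = ∑ i, (w0 i : ℤ) * a i ∧ w0 ≠ v0 := by
    by_contra hc
    push Not at hc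
    exact hcon ⟨v0, hv0, fun w hw => hc w hw⟩
  obtain ⟨w0, hw0, hne0⟩ := hex
  let Bad : Fin n → Prop := fun i => ∃ v w : Fin n → ℕ, h = ∑ i, (v i : ℤ) * a i ∧
    h = ∑ i, (w i : ℤ) * a i ∧ v i < w i
  have hcmp : ∀ (v w : Fin n → ℕ), h = ∑ i, (v i : ℤ) * a i → h = ∑ i, (w i : ℤ) * a i →
      ∀ i, v i < w i → w (σ i) < v (σ i) := by
    intro v w hv hw i hlt
    by_contra hc
    push Not at hc
    have h1 := hb v w hv hw i
    have h2 : (v i : ℤ) * a i < (w i : ℤ) * a i := by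
      apply mul_lt_mul_of_pos_right _ (hpos i)
      exact_mod_cast hlt
    have h3 : (v (σ i) : ℤ) * a (σ i) ≤ (w (σ i) : ℤ) * a (σ i) := by
      apply mul_le_mul_of_nonneg_right _ (hpos _).le
      exact_mod_cast hc
    linarith
  have hBσ : ∀ i, Bad i → Bad (σ i) := by
    rintro i ⟨v, w, hv, hw, hlt⟩
    exact ⟨w, v, hw, hv, hcmp v w hv hw i hlt⟩
  have hBne : ∀ i, Bad i → σ i ≠ i := by
    rintro i ⟨v, w, hv, hw, hlt⟩ he
    have := hcmp v w hv hw i hlt
    rw [he] at this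
    omega
  obtain ⟨i0, hi0⟩ : ∃ i, Bad i := by
    by_contra hc
    push Not at hc
    apply hne0
    funext i
    by_contra hne
    rcases lt_or_gt_of_ne hne with hl | hl
    · exact hc i ⟨w0, v0, hw0, hv0, hl⟩
    · exact hc i ⟨v0, w0, hv0, hw0, hl⟩
  -- consecutive factorizations at a bad index
  have hcons : ∀ p, Bad p → ∃ v w : Fin n → ℕ, h = ∑ i, (v i : ℤ) * a i ∧
      h = ∑ i, (w i : ℤ) * a i ∧ v p < w p ∧
      ∀ u : Fin n → ℕ, h = ∑ i, (u i : ℤ) * a i → v p < u p → w p ≤ u p := by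
    rintro p ⟨v, w1, hv, hw1, hlt1⟩
    have hexm : ∃ m : ℕ, v p < m ∧ ∃ w : Fin n → ℕ, h = ∑ i, (w i : ℤ) * a i ∧ w p = m :=
      ⟨w1 p, hlt1, w1, hw1, rfl⟩
    obtain ⟨hlt, w, hw, hwp⟩ := Nat.find_spec hexm
    refine ⟨v, w, hv, hw, by rw [hwp]; exact hlt, ?_⟩
    intro u hu hup
    rw [hwp]
    exact Nat.find_min' hexm ⟨hup, u, hu, rfl⟩
  choose! V W hVW using hcons
  let y : Fin n → ℤ := fun p =>
    ((V p p + 1 : ℕ) : ℤ) * a p + ((W p (σ p) + 1 : ℕ) : ℤ) * a (σ p)
  have hyα : ∀ p, Bad p → ∃ r, InH a (y p + α - a r) := by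
    intro p hp
    obtain ⟨hv, hw, hlt, hminw⟩ := hVW p hp
    have hyH : InH a (y p) := (InH.smul _ p).add (InH.smul _ (σ p))
    have hyn : ¬ InH a (h - y p) := by
      rintro ⟨z, hz⟩
      set u : Fin n → ℕ := fun i => (z i + (if i = p then V p p + 1 else 0)) +
        (if i = σ p then W p (σ p) + 1 else 0) with hu
      have hu1 : h = ∑ i, (u i : ℤ) * a i := by
        have e := sum_add_ite (a := a) (fun i => z i + (if i = p then V p p + 1 else 0)) (σ p)
          (W p (σ p) + 1)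
        have e2 := sum_add_ite (a := a) z p (V p p + 1)
        simp only [hu]
        rw [e, e2, ← hz]
        simp only [y]; ring
      have hup : V p p < u p := by
        simp only [hu, if_true]
        omega
      have huq : W p (σ p) < u (σ p) := by
        simp only [hu, if_true]
        omega
      have h1 := hminw u hu1 hup
      have h2 := hb u (W p) hu1 hw p
      have h3 : (W p p : ℤ) * a p ≤ (u p : ℤ) * a p := by
        apply mul_le_mul_of_nonneg_right _ (hpos p).le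
        exact_mod_cast h1
      have h4 : (W p (σ p) : ℤ) * a (σ p) < (u (σ p) : ℤ) * a (σ p) := by
        apply mul_lt_mul_of_pos_right _ (hpos _)
        exact_mod_cast huq
      linarith
    have hyα : InH a (y p + α) := by
      by_contra hc
      exact hyn (hAP.dual hg hyH hc)
    have hy0 : y p + α ≠ 0 := by
      have := hyH.nonneg
      linarith
    exact exists_sub hyα hy0
  choose! r hr using hyα
  have harr : ∀ l, ¬ Bad l → ∃ j, InH a ((v0 l : ℤ) * a l + a l + α - a j) := by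
    intro l hl
    have h1 : InH a (((v0 l + 1 : ℕ) : ℤ) * a l + α) := by
      by_contra hc
      obtain ⟨z, hz⟩ := hAP.dual hg (InH.smul (v0 l + 1) l) hc
      apply hl
      refine ⟨v0, fun i => z i + (if i = l then v0 l + 1 else 0), hv0, ?_, ?_⟩
      · rw [sum_add_ite, ← hz]; ring
      · simp only [if_true]; omega
    have h2 : ((v0 l + 1 : ℕ) : ℤ) * a l + α ≠ 0 := by
      have h3 : (0 : ℤ) ≤ ((v0 l + 1 : ℕ) : ℤ) * a l := by positivity
      linarith
    obtain ⟨j, hj⟩ := exists_sub h1 h2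
    refine ⟨j, ?_⟩
    have e : (v0 l : ℤ) * a l + a l + α - a j = ((v0 l + 1 : ℕ) : ℤ) * a l + α - a j := by
      push_cast; ring
    rw [e]; exact hj
  choose! s hs using harr
  let ρ : Fin n → Fin n := fun l => min l (σ l)
  have hρσ : ∀ l, ρ (σ l) = ρ l := by
    intro l; simp only [ρ]; rw [hσ, min_comm]
  have hρ : ∀ l, ρ l = l ∨ (ρ l = σ l) := by
    intro l
    rcases le_total l (σ l) with h1 | h1
    · left; exact min_eq_left h1
    · right; exact min_eq_right h1
  have hBρ : ∀ l, Bad l → Bad (ρ l) := by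
    intro l hl
    rcases hρ l with h1 | h1
    · rw [h1]; exact hl
    · rw [h1]; exact hBσ l hl
  let g : Fin n → Fin n := fun l => if Bad l then r (ρ l) else s l
  let c : Fin n → ℤ := fun l => if Bad l then y (ρ l) - a l else (v0 l : ℤ) * a l
  have hgB : ∀ l, Bad l → g l = r (ρ l) := fun l hl => if_pos hl
  have hgN : ∀ l, ¬ Bad l → g l = s l := fun l hl => if_neg hl
  have hcB : ∀ l, Bad l → c l = y (ρ l) - a l := fun l hl => if_pos hl
  have hcN : ∀ l, ¬ Bad l → c l = (v0 l : ℤ) * a l := fun l hl => if_neg hl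
  have hstep : ∀ l, InH a (c l + a l + α - a (g l)) := by
    intro l
    by_cases hl : Bad l
    · rw [hgB l hl, hcB l hl]
      have e : y (ρ l) - a l + a l + α - a (r (ρ l)) = y (ρ l) + α - a (r (ρ l)) := by ring
      rw [e]; exact hr (ρ l) (hBρ l hl)
    · rw [hgN l hl, hcN l hl]; exact hs l hl
  set F : Finset (Fin n) := Finset.univ.filter (fun x => x ∈ Function.periodicPts g) with hF
  have hbij := Function.bijOn_periodicPts g
  obtain ⟨x0, hx0⟩ := exists_periodic (⟨0, by omega⟩ : Fin n) g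
  have hFne : 1 ≤ F.card := by
    refine Finset.card_pos.mpr ⟨x0, ?_⟩
    simp [hF, hx0]
  have hmem : ∀ x, x ∈ F ↔ x ∈ Function.periodicPts g := by
    intro x; simp [hF]
  have hnot : ∀ l, Bad l → l ∈ F → σ l ∉ F := by
    intro l hl h1 h2
    apply hBne l hl
    refine hbij.injOn ((hmem _).mp h2) ((hmem _).mp h1) ?_
    rw [hgB l hl, hgB _ (hBσ l hl), hρσ]
  have hFlt : F.card < n := by
    have hne : F ≠ Finset.univ := by
      intro he
      exact hnot i0 hi0 (by rw [he]; exact Finset.mem_univ _) (by rw [he]; exact Finset.mem_univ _)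
    have := Finset.card_lt_card (Finset.ssubset_univ_iff.mpr hne)
    simpa using this
  have hsum : ∑ i ∈ F, (a (g i) : ℤ) = ∑ i ∈ F, (a i : ℤ) := by
    refine Finset.sum_nbij g ?_ ?_ ?_ ?_
    · intro i hi
      rw [hmem] at hi ⊢
      exact hbij.mapsTo hi
    · intro i hi j hj hij
      exact hbij.injOn ((hmem i).mp hi) ((hmem j).mp hj) hij
    · intro j hj
      obtain ⟨i, hi, hij⟩ := hbij.surjOn ((hmem j).mp hj)
      exact ⟨i, (hmem i).mpr hi, hij⟩
    · intro i _; rfl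
  have hH : InH a (∑ i ∈ F, c i + (F.card : ℤ) * α) := by
    have e : ∑ i ∈ F, c i + (F.card : ℤ) * α = ∑ i ∈ F, (c i + a i + α - a (g i)) := by
      rw [Finset.sum_sub_distrib, Finset.sum_add_distrib, Finset.sum_add_distrib, hsum]
      simp only [Finset.sum_const, nsmul_eq_mul]
      ring
    rw [e]
    exact InH.sum _ _ (fun i _ => hstep i)
  -- the mixed factorization
  let u : Fin n → ℕ := fun l =>
    if Bad l then (if ρ l ∈ F then V (ρ l) l else W (ρ l) l) else v0 l
  have hu : h = ∑ i, (u i : ℤ) * a i := by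
    have h1 : ∀ l, (u l : ℤ) * a l + (u (σ l) : ℤ) * a (σ l) =
        (v0 l : ℤ) * a l + (v0 (σ l) : ℤ) * a (σ l) := by
      intro l
      by_cases hl : Bad l
      · have hl2 := hBσ l hl
        obtain ⟨hv, hw, -, -⟩ := hVW (ρ l) (hBρ l hl)
        by_cases hm : ρ l ∈ F
        · have e1 : u l = V (ρ l) l := by simp only [u]; rw [if_pos hl, if_pos hm]
          have e2 : u (σ l) = V (ρ l) (σ l) := by
            simp only [u]; rw [if_pos hl2, hρσ, if_pos hm]
          rw [e1, e2]; exact hb _ _ hv hv0 l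
        · have e1 : u l = W (ρ l) l := by simp only [u]; rw [if_pos hl, if_neg hm]
          have e2 : u (σ l) = W (ρ l) (σ l) := by
            simp only [u]; rw [if_pos hl2, hρσ, if_neg hm]
          rw [e1, e2]; exact hb _ _ hw hv0 l
      · have hl2 : ¬ Bad (σ l) := by
          intro hc
          have := hBσ _ hc
          rw [hσ] at this
          exact hl this
        have e1 : u l = v0 l := by simp only [u]; rw [if_neg hl]
        have e2 : u (σ l) = v0 (σ l) := by simp only [u]; rw [if_neg hl2]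
        rw [e1, e2]
    have h2 : ∀ x : Fin n → ℕ, ∑ l, (x (σ l) : ℤ) * a (σ l) = ∑ l, (x l : ℤ) * a l := fun x =>
      Equiv.sum_comp (Function.Involutive.toPerm σ hσ) (fun l => (x l : ℤ) * a l)
    have h3 : ∑ l, ((u l : ℤ) * a l + (u (σ l) : ℤ) * a (σ l)) =
        ∑ l, ((v0 l : ℤ) * a l + (v0 (σ l) : ℤ) * a (σ l)) :=
      Finset.sum_congr rfl (fun l _ => h1 l)
    rw [Finset.sum_add_distrib, Finset.sum_add_distrib, h2, h2, ← hv0] at h3
    linarith
  -- costs
  have hcost : ∀ l, Bad l → l ∈ F → ∃ T : ℕ, T ≤ u (σ l) ∧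
      c l = (u l : ℤ) * a l + (T : ℤ) * a (σ l) := by
    intro l hl hlF
    obtain ⟨hv, hw, hlt, -⟩ := hVW (ρ l) (hBρ l hl)
    have hlt2 := hcmp _ _ hv hw (ρ l) hlt
    have hl2 := hBσ l hl
    rcases hρ l with h1 | h1
    · have hm : ρ l ∈ F := by rw [h1]; exact hlF
      have e1 : u l = V (ρ l) l := by simp only [u]; rw [if_pos hl, if_pos hm]
      have e2 : u (σ l) = V (ρ l) (σ l) := by
        simp only [u]; rw [if_pos hl2, hρσ, if_pos hm]
      refine ⟨W (ρ l) (σ l) + 1, ?_, ?_⟩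
      · rw [e2]; rw [h1] at hlt2 ⊢; omega
      · rw [hcB l hl, e1]; simp only [y]; rw [h1]; push_cast; ring
    · have hm : ρ l ∉ F := by rw [h1]; exact hnot l hl hlF
      have e1 : u l = W (ρ l) l := by simp only [u]; rw [if_pos hl, if_neg hm]
      have e2 : u (σ l) = W (ρ l) (σ l) := by
        simp only [u]; rw [if_pos hl2, hρσ, if_neg hm]
      refine ⟨V (ρ l) (σ l) + 1, ?_, ?_⟩
      · rw [e2]; rw [h1] at hlt ⊢; omega
      · rw [hcB l hl, e1]; simp only [y]; rw [h1, hσ]; push_cast; ring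
  choose! T hT using hcost
  have hdiv : InH a (h - ∑ i ∈ F, c i) := by
    set B := F.filter (fun l => Bad l) with hB
    have hBm : ∀ l, l ∈ B ↔ l ∈ F ∧ Bad l := by intro l; simp [hB]
    have hI : B.image σ ⊆ Fᶜ := by
      intro x hx
      obtain ⟨l, hl, rfl⟩ := Finset.mem_image.mp hx
      have := (hBm l).mp hl
      exact Finset.mem_compl.mpr (hnot l this.2 this.1)
    have e1 : ∑ i ∈ F, c i = ∑ i ∈ F, (u i : ℤ) * a i + ∑ i ∈ B, (T i : ℤ) * a (σ i) := by
      have e2 : ∑ i ∈ F, c i = ∑ i ∈ F, ((u i : ℤ) * a i +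
          (if Bad i then (T i : ℤ) * a (σ i) else 0)) := by
        refine Finset.sum_congr rfl ?_
        intro i hi
        by_cases hl : Bad i
        · rw [if_pos hl]; exact (hT i hl hi).2
        · rw [if_neg hl, hcN i hl]
          have e3 : u i = v0 i := by simp only [u]; rw [if_neg hl]
          rw [e3]; ring
      have e8 : ∑ i ∈ B, (T i : ℤ) * a (σ i) =
          ∑ i ∈ F, (if Bad i then (T i : ℤ) * a (σ i) else 0) :=
        Finset.sum_filter (fun l => Bad l) (fun i => (T i : ℤ) * a (σ i))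
      rw [e2, Finset.sum_add_distrib, e8]
    have e3 : h = ∑ i ∈ F, (u i : ℤ) * a i + ∑ i ∈ Fᶜ, (u i : ℤ) * a i := by
      rw [Finset.sum_add_sum_compl]; exact hu
    have e4 : ∑ i ∈ B.image σ, (u i : ℤ) * a i = ∑ i ∈ B, (u (σ i) : ℤ) * a (σ i) := by
      rw [Finset.sum_image]
      intro x _ z _ hxz
      have := congrArg σ hxz
      rwa [hσ, hσ] at this
    have e5 : ∑ i ∈ Fᶜ, (u i : ℤ) * a i = ∑ i ∈ Fᶜ \ B.image σ, (u i : ℤ) * a i +
        ∑ i ∈ B.image σ, (u i : ℤ) * a i := (Finset.sum_sdiff hI).symm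
    have e6 : ∑ i ∈ B, ((u (σ i) - T i : ℕ) : ℤ) * a (σ i) =
        ∑ i ∈ B, (u (σ i) : ℤ) * a (σ i) - ∑ i ∈ B, (T i : ℤ) * a (σ i) := by
      rw [← Finset.sum_sub_distrib]
      refine Finset.sum_congr rfl ?_
      intro i hi
      have h1 := (hBm i).mp hi
      rw [Nat.cast_sub (hT i h1.2 h1.1).1]; ring
    have e7 : h - ∑ i ∈ F, c i = ∑ i ∈ B, ((u (σ i) - T i : ℕ) : ℤ) * a (σ i) +
        ∑ i ∈ Fᶜ \ B.image σ, (u i : ℤ) * a i := by
      rw [e1, e6]; linarith
    rw [e7]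
    exact (InH.sum _ _ (fun i _ => InH.smul _ _)).add (InH.sum _ _ (fun i _ => InH.smul _ _))
  apply hAP.not_mem hFne hFlt
  have e : h + (F.card : ℤ) * α = (∑ i ∈ F, c i + (F.card : ℤ) * α) + (h - ∑ i ∈ F, c i) := by
    ring
  rw [e]
  exact hH.add hdiv

end Pool.Agent.H610DN
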