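import Pool.Agent.Q122.DetNS.CaseB

/-!
# Factorizations of `h` that differ only at two generators
-/

namespace Pool.Agent.H610DN

open Q122.DetNS

variable {n : ℕ} {a : Fin n → ℕ} {h α : ℤ}

/-- Adding a multiple of a generator to a factorization. -/
theorem sum_add_ite (z : Fin n → ℕ) (l : Fin n) (c : ℕ) :
    ∑ i, ((z i + (if i = l then c else 0) : ℕ) : ℤ) * a i =
      ∑ i, (z i : ℤ) * a i + (c : ℤ) * a l := by
  have : ∀ i, ((z i + (if i = l then c else 0) : ℕ) : ℤ) * a i =
      (z i : ℤ) * a i + (if i = l then (c : ℤ) * a l else 0) := by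
    intro i
    by_cases hi : i = l
    · subst hi; simp; ring
    · simp [hi]
  simp only [this, Finset.sum_add_distrib]
  simp

theorem unique_of_two (hn : 3 ≤ n) (ha : IsMinGen a) (hAP : IsAP a h α) (p q : Fin n)
    (hpq : ∀ v w : Fin n → ℕ, h = ∑ i, (v i : ℤ) * a i → h = ∑ i, (w i : ℤ) * a i →
      ∀ i, i ≠ p → i ≠ q → v i = w i) :
    ∃! v : Fin n → ℕ, h = ∑ i, (v i : ℤ) * a i := by
  classical
  obtain ⟨hg, hmin⟩ := ha
  have hpos : ∀ i, (0 : ℤ) < a i := fun i => by exact_mod_cast (hmin i).1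
  have hα : 0 < α := hAP.1
  have hα0 : ¬ InH a α := hAP.alpha_not hn
  have hh : InH a h := by
    have := hAP.dual hg InH.zero (by simpa using hα0)
    simpa using this
  obtain ⟨v0, hv0⟩ := hh
  by_contra hcon
  have hex : ∃ w0 : Fin n → ℕ, h = ∑ i, (w0 i : ℤ) * a i ∧ w0 ≠ v0 := by
    by_contra hc
    push Not at hc
    exact hcon ⟨v0, hv0, fun w hw => hc w hw⟩
  obtain ⟨w0, hw0, hne0⟩ := hex
  -- the difference of two factorizations
  have hdiff : ∀ v w : Fin n → ℕ, h = ∑ i, (v i : ℤ) * a i → h = ∑ i, (w i : ℤ) * a i →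
      p ≠ q → (v p : ℤ) * a p + (v q : ℤ) * a q = (w p : ℤ) * a p + (w q : ℤ) * a q := by
    intro v w hv hw hpne
    have h1 : ∑ i, ((v i : ℤ) * a i - (w i : ℤ) * a i) = 0 := by
      rw [Finset.sum_sub_distrib, ← hv, ← hw]; ring
    rw [Fintype.sum_eq_add p q hpne] at h1
    · linarith
    · rintro x ⟨hx1, hx2⟩
      rw [hpq v w hv hw x hx1 hx2]; ring
  have hpne : p ≠ q := by
    intro he
    have h1 : ∑ i, ((v0 i : ℤ) * a i - (w0 i : ℤ) * a i) = 0 := by
      rw [Finset.sum_sub_distrib, ← hv0, ← hw0]; ring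
    rw [Fintype.sum_eq_single p] at h1
    · have h2 : (v0 p : ℤ) = w0 p := by
        have h3 : ((v0 p : ℤ) - w0 p) * a p = 0 := by linarith
        rcases mul_eq_zero.mp h3 with h4 | h4
        · linarith
        · exact absurd h4 (hpos p).ne'
      apply hne0
      funext i
      by_cases hi : i = p
      · subst hi; exact_mod_cast h2.symm
      · exact (hpq w0 v0 hw0 hv0 i hi (he ▸ hi))
    · intro x hx
      rw [hpq v0 w0 hv0 hw0 x hx (he ▸ hx)]; ring
  have hp0 : v0 p ≠ w0 p := by
    intro he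
    have h1 := hdiff v0 w0 hv0 hw0 hpne
    rw [he] at h1
    have h3 : ((v0 q : ℤ) - w0 q) * a q = 0 := by linarith
    have h2 : (v0 q : ℤ) = w0 q := by
      rcases mul_eq_zero.mp h3 with h4 | h4
      · linarith
      · exact absurd h4 (hpos q).ne'
    apply hne0
    funext i
    by_cases hi : i = p
    · subst hi; exact he.symm
    by_cases hi2 : i = q
    · subst hi2; exact_mod_cast h2.symm
    exact hpq w0 v0 hw0 hv0 i hi hi2
  -- consecutive factorizations
  obtain ⟨v, hv, w1, hw1, hlt1⟩ : ∃ v : Fin n → ℕ, h = ∑ i, (v i : ℤ) * a i ∧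
      ∃ w : Fin n → ℕ, h = ∑ i, (w i : ℤ) * a i ∧ v p < w p := by
    rcases lt_or_gt_of_ne hp0 with hl | hl
    · exact ⟨v0, hv0, w0, hw0, hl⟩
    · exact ⟨w0, hw0, v0, hv0, hl⟩
  have hexm : ∃ m : ℕ, v p < m ∧ ∃ w : Fin n → ℕ, h = ∑ i, (w i : ℤ) * a i ∧ w p = m :=
    ⟨w1 p, hlt1, w1, hw1, rfl⟩
  obtain ⟨hlt, w, hw, hwp⟩ := Nat.find_spec hexm
  have hminw : ∀ u : Fin n → ℕ, h = ∑ i, (u i : ℤ) * a i → v p < u p → w p ≤ u p := by
    intro u hu hup
    rw [hwp]
    exact Nat.find_min' hexm ⟨hup, u, hu, rfl⟩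
  rw [← hwp] at hlt
  clear hwp
  have hd := hdiff v w hv hw hpne
  have hq : w q < v q := by
    by_contra hc
    push Not at hc
    have h1 : (v p : ℤ) * a p < (w p : ℤ) * a p := by
      apply mul_lt_mul_of_pos_right _ (hpos p)
      exact_mod_cast hlt
    have h2 : (v q : ℤ) * a q ≤ (w q : ℤ) * a q := by
      apply mul_le_mul_of_nonneg_right _ (hpos q).le
      exact_mod_cast hc
    linarith
  -- the key element
  set y : ℤ := ((v p + 1 : ℕ) : ℤ) * a p + ((w q + 1 : ℕ) : ℤ) * a q with hy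
  have hyH : InH a y := (InH.smul _ p).add (InH.smul _ q)
  have hyn : ¬ InH a (h - y) := by
    rintro ⟨z, hz⟩
    set u : Fin n → ℕ := fun i => (z i + (if i = p then v p + 1 else 0)) +
      (if i = q then w q + 1 else 0) with hu
    have hu1 : h = ∑ i, (u i : ℤ) * a i := by
      have e := sum_add_ite (a := a) (fun i => z i + (if i = p then v p + 1 else 0)) q (w q + 1)
      have e2 := sum_add_ite (a := a) z p (v p + 1)
      simp only [hu]
      rw [e, e2, ← hz, hy]; ring
    have hup : v p < u p := by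
      simp only [hu, if_true]
      omega
    have huq : w q < u q := by
      simp only [hu, if_true]
      omega
    have h1 := hminw u hu1 hup
    have h2 := hdiff u w hu1 hw hpne
    have h3 : (w p : ℤ) * a p ≤ (u p : ℤ) * a p := by
      apply mul_le_mul_of_nonneg_right _ (hpos p).le
      exact_mod_cast h1
    have h4 : (w q : ℤ) * a q < (u q : ℤ) * a q := by
      apply mul_lt_mul_of_pos_right _ (hpos q)
      exact_mod_cast huq
    linarith
  have hyα : InH a (y + α) := by
    by_contra hc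
    exact hyn (hAP.dual hg hyH hc)
  have hy0 : y + α ≠ 0 := by
    have := hyH.nonneg
    linarith
  have h1α : ¬ InH a (h + α) := by
    have := hAP.not_mem (j := 1) (le_refl _) (by omega)
    simpa using this
  obtain ⟨r, hr⟩ := exists_sub hyα hy0
  -- arrows out of the other generators
  have harr : ∀ l, l ≠ p → l ≠ q → ∃ j, InH a ((v l : ℤ) * a l + a l + α - a j) := by
    intro l hlp hlq
    have h1 : InH a (((v l + 1 : ℕ) : ℤ) * a l + α) := by
      by_contra hc
      obtain ⟨z, hz⟩ := hAP.dual hg (InH.smul (v l + 1) l) hc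
      have hu1 : h = ∑ i, ((z i + (if i = l then v l + 1 else 0) : ℕ) : ℤ) * a i := by
        rw [sum_add_ite, ← hz]; ring
      have h2 := hpq _ v hu1 hv l hlp hlq
      simp at h2
      omega
    have h2 : ((v l + 1 : ℕ) : ℤ) * a l + α ≠ 0 := by
      have h3 : (0 : ℤ) ≤ ((v l + 1 : ℕ) : ℤ) * a l := by positivity
      linarith
    obtain ⟨j, hj⟩ := exists_sub h1 h2
    refine ⟨j, ?_⟩
    have e : (v l : ℤ) * a l + a l + α - a j = ((v l + 1 : ℕ) : ℤ) * a l + α - a j := by
      push_cast; ring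
    rw [e]; exact hj
  let g : Fin n → Fin n := fun l =>
    if hl : l ≠ p ∧ l ≠ q then Classical.choose (harr l hl.1 hl.2) else r
  let c : Fin n → ℤ := fun l =>
    if l = p then y - a p else if l = q then y - a q else (v l : ℤ) * a l
  have hgp : g p = r := by simp [g]
  have hgq : g q = r := by simp [g]
  have hcp : c p = y - a p := by simp [c]
  have hcq : c q = y - a q := by simp [c, hpne.symm]
  have hcl : ∀ l, l ≠ p → l ≠ q → c l = (v l : ℤ) * a l := by
    intro l h1 h2; simp [c, h1, h2]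
  have hstep : ∀ l, InH a (c l + a l + α - a (g l)) := by
    intro l
    by_cases hlp : l = p
    · subst hlp
      rw [hgp, hcp]
      have e : y - a l + a l + α - a r = y + α - a r := by ring
      rw [e]; exact hr
    by_cases hlq : l = q
    · subst hlq
      rw [hgq, hcq]
      have e : y - a l + a l + α - a r = y + α - a r := by ring
      rw [e]; exact hr
    rw [hcl l hlp hlq]
    have hg' : g l = Classical.choose (harr l hlp hlq) := by simp [g, hlp, hlq]
    rw [hg']
    exact Classical.choose_spec (harr l hlp hlq)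
  -- periodic points
  set F : Finset (Fin n) := Finset.univ.filter (fun x => x ∈ Function.periodicPts g) with hF
  have hbij := Function.bijOn_periodicPts g
  obtain ⟨x0, hx0⟩ := exists_periodic (⟨0, by omega⟩ : Fin n) g
  have hFne : 1 ≤ F.card := by
    refine Finset.card_pos.mpr ⟨x0, ?_⟩
    simp [hF, hx0]
  have hmem : ∀ x, x ∈ F ↔ x ∈ Function.periodicPts g := by
    intro x; simp [hF]
  have hnot : ¬ (p ∈ F ∧ q ∈ F) := by
    rintro ⟨h1, h2⟩
    exact hpne (hbij.injOn ((hmem p).mp h1) ((hmem q).mp h2) (by rw [hgp, hgq]))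
  have hFlt : F.card < n := by
    have hne : F ≠ Finset.univ := by
      intro he
      apply hnot
      rw [he]
      exact ⟨Finset.mem_univ _, Finset.mem_univ _⟩
    have := Finset.card_lt_card (Finset.ssubset_univ_iff.mpr hne)
    simpa using this
  have hsum : ∑ i ∈ F, (a (g i) : ℤ) = ∑ i ∈ F, (a i : ℤ) := by
    refine Finset.sum_nbij g ?_ ?_ ?_ ?_
    · intro i hi
      rw [hmem] at hi ⊢
      exact hbij.mapsTo hi
    · intro i hi j hj hij
      exact hbij.injOn ((hmem i).mp hi) ((hmem j).mp hj) hij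
    · intro j hj
      obtain ⟨i, hi, hij⟩ := hbij.surjOn ((hmem j).mp hj)
      exact ⟨i, (hmem i).mpr hi, hij⟩
    · intro i _; rfl
  have hH : InH a (∑ i ∈ F, c i + (F.card : ℤ) * α) := by
    have e : ∑ i ∈ F, c i + (F.card : ℤ) * α = ∑ i ∈ F, (c i + a i + α - a (g i)) := by
      rw [Finset.sum_sub_distrib, Finset.sum_add_distrib, Finset.sum_add_distrib, hsum]
      simp only [Finset.sum_const, nsmul_eq_mul]
      ring
    rw [e]
    exact InH.sum _ _ (fun i _ => hstep i)
  -- the costs divide `h`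
  have hdiv : InH a (h - ∑ i ∈ F, c i) := by
    by_cases hpF : p ∈ F
    · have hqF : q ∉ F := fun hc => hnot ⟨hpF, hc⟩
      have hqF' : q ∈ Fᶜ := Finset.mem_compl.mpr hqF
      have e1 : ∑ i ∈ F, c i = ∑ i ∈ F, (v i : ℤ) * a i + ((w q + 1 : ℕ) : ℤ) * a q := by
        rw [← Finset.add_sum_erase F c hpF, ← Finset.add_sum_erase F (fun i => (v i : ℤ) * a i) hpF]
        have e2 : ∑ i ∈ F.erase p, c i = ∑ i ∈ F.erase p, (v i : ℤ) * a i := by
          refine Finset.sum_congr rfl ?_
          intro i hi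
          have h1 := Finset.ne_of_mem_erase hi
          have h2 : i ≠ q := fun he => hqF (he ▸ Finset.mem_of_mem_erase hi)
          exact hcl i h1 h2
        rw [e2, hcp, hy]
        push_cast; ring
      have e3 : h = ∑ i ∈ F, (v i : ℤ) * a i + ∑ i ∈ Fᶜ, (v i : ℤ) * a i := by
        rw [Finset.sum_add_sum_compl]; exact hv
      have e4 : h - ∑ i ∈ F, c i = ((v q - (w q + 1) : ℕ) : ℤ) * a q +
          ∑ i ∈ Fᶜ.erase q, (v i : ℤ) * a i := by
        rw [e1, e3, ← Finset.add_sum_erase Fᶜ (fun i => (v i : ℤ) * a i) hqF']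
        rw [Nat.cast_sub (by omega : w q + 1 ≤ v q)]
        push_cast; ring
      rw [e4]
      exact (InH.smul _ q).add (InH.sum _ _ (fun i _ => InH.smul _ _))
    · by_cases hqF : q ∈ F
      · have hpF' : p ∈ Fᶜ := Finset.mem_compl.mpr hpF
        have e1 : ∑ i ∈ F, c i = ∑ i ∈ F, (w i : ℤ) * a i + ((v p + 1 : ℕ) : ℤ) * a p := by
          rw [← Finset.add_sum_erase F c hqF,
            ← Finset.add_sum_erase F (fun i => (w i : ℤ) * a i) hqF]
          have e2 : ∑ i ∈ F.erase q, c i = ∑ i ∈ F.erase q, (w i : ℤ) * a i := by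
            refine Finset.sum_congr rfl ?_
            intro i hi
            have h1 := Finset.ne_of_mem_erase hi
            have h2 : i ≠ p := fun he => hpF (he ▸ Finset.mem_of_mem_erase hi)
            rw [hcl i h2 h1, hpq v w hv hw i h2 h1]
          rw [e2, hcq, hy]
          push_cast; ring
        have e3 : h = ∑ i ∈ F, (w i : ℤ) * a i + ∑ i ∈ Fᶜ, (w i : ℤ) * a i := by
          rw [Finset.sum_add_sum_compl]; exact hw
        have e4 : h - ∑ i ∈ F, c i = ((w p - (v p + 1) : ℕ) : ℤ) * a p +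
            ∑ i ∈ Fᶜ.erase p, (w i : ℤ) * a i := by
          rw [e1, e3, ← Finset.add_sum_erase Fᶜ (fun i => (w i : ℤ) * a i) hpF']
          rw [Nat.cast_sub (by omega : v p + 1 ≤ w p)]
          push_cast; ring
        rw [e4]
        exact (InH.smul _ p).add (InH.sum _ _ (fun i _ => InH.smul _ _))
      · have e1 : ∑ i ∈ F, c i = ∑ i ∈ F, (v i : ℤ) * a i := by
          refine Finset.sum_congr rfl ?_
          intro i hi
          exact hcl i (fun he => hpF (he ▸ hi)) (fun he => hqF (he ▸ hi))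
        have e3 : h = ∑ i ∈ F, (v i : ℤ) * a i + ∑ i ∈ Fᶜ, (v i : ℤ) * a i := by
          rw [Finset.sum_add_sum_compl]; exact hv
        have e4 : h - ∑ i ∈ F, c i = ∑ i ∈ Fᶜ, (v i : ℤ) * a i := by
          rw [e1]; linarith
        rw [e4]
        exact InH.sum _ _ (fun i _ => InH.smul _ _)
  apply hAP.not_mem hFne hFlt
  have e : h + (F.card : ℤ) * α = (∑ i ∈ F, c i + (F.card : ℤ) * α) + (h - ∑ i ∈ F, c i) := by
    ring
  rw [e]
  exact hH.add hdiv

end Pool.Agent.H610DN
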